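import Pool.Agent.Lib.MP_c7af3c_ag.GEN.Interfaces

/-!
# MP_c7af3c_ag, project METC: the transfer theorem, with commuting derivations
(Copy of project MET of helper1; the derivation data have the additional field `comm`.)
Any system of polynomial equations with constants from a ring `R`, parameters `a` and unknowns `z`
for which the solutions satisfy a height inequality `HB` (over every field with derivations dual to
the parameters and trivial on the constants) has only finitely many solutions over every finitely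
generated extension of an algebraically closed field `k0` containing the constants, if the
parameters are algebraically independent over `k0`. (Generalises the second half of project GEN.)
-/

set_option autoImplicit false

namespace Pool.Agent.MetC

open MvPolynomial WithZero IsDedekindDomain Pool.Agent.Gen

/-- the solutions `z` of the system `E` with parameters `a` -/
def Sol {R ι J : Type} [CommRing R] (E : Set (MvPolynomial (ι ⊕ J) R)) {L : Type} [CommRing L]
    (φ : R →+* L) (a : ι → L) (z : J → L) : Prop :=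
  ∀ P ∈ E, eval₂ φ (Sum.elim a z) P = 0

/-- parameters with commuting dual derivations -/
structure DD (ι L : Type) [Field L] where
  a : ι → L
  del : ι → Derivation ℤ L L
  one : ∀ s, del s (a s) = 1
  zero : ∀ s t, s ≠ t → del s (a t) = 0
  comm : ∀ s t f, del s (del t f) = del t (del s f)

/-- the height of an element -/
noncomputable def h1 {L : Type} [Field L] (S : PlaceSys L) (y : L) : ℤ := S.ht (n := 1) ![1, y]

/-- the bounds of the derivations and parameters at the places -/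
structure Bd {ι L : Type} [Field L] (S : PlaceSys L) (D : DD ι L) (M : S.V → ℕ) : Prop where
  fin : {p | M p ≠ 0}.Finite
  del : ∀ p s f, S.v p f ≤ 1 → S.v p (D.del s f) ≤ exp (M p : ℤ)
  a : ∀ p s, S.v p (D.a s) ≤ exp (M p : ℤ)

/-- the height inequality -/
def HB {R ι J : Type} [CommRing R] (E : Set (MvPolynomial (ι ⊕ J) R)) : Prop :=
  ∃ A : ℕ, ∀ (L : Type) [Field L] [CharZero L] (φ : R →+* L) (D : DD ι L),
    (∀ s r, D.del s (φ r) = 0) → ∀ z : J → L, Sol E φ D.a z →
    ∀ S : PlaceSys L, S.IsProd → (∀ p r, S.v p (φ r) ≤ 1) → ∀ M : S.V → ℕ, Bd S D M → ∀ j,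
      h1 S (z j) ≤ A * ∑ᶠ p, (S.w p : ℤ) * M p

/-! ### module statements -/

def HeightS : Prop := ∀ (R k0 K : Type) [CommRing R] [Field k0] [CharZero k0] [Field K]
  [Algebra k0 K] (N : ℕ) (T : Dat k0 K N) (hdir : ∀ i, FF (dirκ (k0 := k0) T.t i) K (T.t i))
  (ι J : Type) [Finite ι] (E : Set (MvPolynomial (ι ⊕ J) R)) (φ : R →+* k0) (D : DD ι K),
  (∀ s, ∃ j, ∀ f, D.del s f = T.del j f) → HB E →
  ∀ i, ∃ C : ℤ, ∀ z : J → K, Sol E ((algebraMap k0 K).comp φ) D.a z →
    ∀ j, h1 (ffPlaces (hdir i)) (z j) ≤ C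

/-- The ambient field. -/
structure Amb (C Ω ι : Type) [Field C] [Field Ω] [Algebra C Ω] where
  KK : IntermediateField C Ω
  EE : IntermediateField C Ω
  ld : KK.LinearDisjoint EE
  D : DD ι Ω
  a_mem : ∀ s, D.a s ∈ KK
  del_KK : ∀ s, ∀ f ∈ KK, D.del s f ∈ KK
  del_EE : ∀ s, ∀ f ∈ EE, D.del s f = 0

def UltraS : Prop := ∀ (R k0 K : Type) [CommRing R] [Field k0] [IsAlgClosed k0] [CharZero k0]
  [Field K] [Algebra k0 K] (ι J : Type) [Finite J] (E : Set (MvPolynomial (ι ⊕ J) R))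
  (φ : R →+* k0) (D : DD ι K),
  (∀ s, ∀ a : k0, D.del s (algebraMap k0 K a) = 0) →
  ∀ (N r B : ℕ) (t : Fin N → K) (θ : Fin r → K) (z : ℕ → J → K),
  Function.Injective z → (∀ ν, Sol E ((algebraMap k0 K).comp φ) D.a (z ν)) →
  (∀ ν j, IsBdd (k0 := k0) t θ B (z ν j)) →
  ∃ (Ω : Type) (_ : Field Ω) (_ : Algebra k0 Ω) (A : Amb k0 Ω ι) (y : J → Ω),
    IsAlgClosed A.EE ∧ Sol E ((algebraMap k0 Ω).comp φ) A.D.a y ∧ (∀ j, y j ∈ A.KK ⊔ A.EE) ∧
      ¬ ∀ j, y j ∈ A.KK

def RestrS : Prop := ∀ (C Ω ι : Type) [Field C] [Field Ω] [Algebra C Ω] (A : Amb C Ω ι)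
  (G : Set Ω), (∀ g ∈ G, g ∈ A.EE) → ∃ D' : DD ι (IntermediateField.adjoin A.KK G),
    (∀ s, ((D'.a s : IntermediateField.adjoin A.KK G) : Ω) = A.D.a s) ∧
    ∀ s, ∀ f : IntermediateField.adjoin A.KK G,
      ((D'.del s f : IntermediateField.adjoin A.KK G) : Ω) = A.D.del s (f : Ω)

def RigidS : Prop := ∀ (R C Ω : Type) [CommRing R] [Field C] [IsAlgClosed C] [CharZero C]
  [Field Ω] [Algebra C Ω] (ι J : Type) (E : Set (MvPolynomial (ι ⊕ J) R)), HB E →
  ∀ (φ : R →+* C) (A : Amb C Ω ι),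
  ∀ (ε : Ω), ε ∈ A.EE → Transcendental C ε → ∀ (S : Set Ω), S.Finite →
  (∀ s ∈ S, s ∈ A.EE ∧ IsAlgebraic (IntermediateField.adjoin C {ε}) s) →
  ∀ z : J → Ω, Sol E ((algebraMap C Ω).comp φ) A.D.a z →
  (∀ j, z j ∈ IntermediateField.adjoin A.KK (insert ε S)) → ∀ j, z j ∈ A.KK

def ChainS : Prop := ∀ (R k0 Ω : Type) [CommRing R] [Field k0] [IsAlgClosed k0] [CharZero k0]
  [Field Ω] [Algebra k0 Ω] (ι J : Type) [Finite J] (E : Set (MvPolynomial (ι ⊕ J) R)), HB E →
  ∀ (φ : R →+* k0) (A : Amb k0 Ω ι), IsAlgClosed A.EE →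
  ∀ z : J → Ω, Sol E ((algebraMap k0 Ω).comp φ) A.D.a z →
  (∀ j, z j ∈ A.KK ⊔ A.EE) → ∀ j, z j ∈ A.KK

/-- finiteness over finitely generated extensions of `k0` -/
def Thm1S : Prop := ∀ (R k0 K : Type) [CommRing R] [Field k0] [IsAlgClosed k0] [CharZero k0]
  [Field K] [Algebra k0 K], (⊤ : IntermediateField k0 K).FG → ∀ (ι J : Type) [Finite ι] [Finite J]
  (E : Set (MvPolynomial (ι ⊕ J) R)) (φ : R →+* k0) (a : ι → K), AlgebraicIndependent k0 a →
  HB E → {z : J → K | Sol E ((algebraMap k0 K).comp φ) a z}.Finite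

/-- finiteness in a fixed algebraically closed field -/
def Thm2S : Prop := ∀ (R k0 k : Type) [CommRing R] [Field k0] [IsAlgClosed k0] [CharZero k0]
  [Field k] [Algebra k0 k] (ι J : Type) [Finite ι] [Finite J]
  (E : Set (MvPolynomial (ι ⊕ J) R)) (φ : R →+* k0) (a : ι → k), AlgebraicIndependent k0 a →
  HB E → ∀ (S : Set k), S.Finite →
  {z : J → k | (∀ j, z j ∈ IntermediateField.adjoin k0 S) ∧
    Sol E ((algebraMap k0 k).comp φ) a z}.Finite

/-- the version with constants in `ℤ` -/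
def ThmlS : Prop := ∀ (k : Type) [Field k] [IsAlgClosed k] [CharZero k]
  (ι J : Type) [Finite ι] [Finite J] (E : Set (MvPolynomial (ι ⊕ J) ℤ)) (a : ι → k),
  AlgebraicIndependent ℤ a → HB E → ∀ (S : Set k), S.Finite →
  {z : J → k | (∀ j, z j ∈ Subfield.closure S) ∧ Sol E (Int.castRingHom k) a z}.Finite

end Pool.Agent.MetC
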