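import Pool.Agent.Lib.MP_c7af3c_ag.METC.H75.Height
import Pool.Agent.Lib.MP_c7af3c_ag.METC.H75.Restr
import Pool.Agent.Lib.MP_c7af3c_ag.METC.H75.Ultra
import Pool.Agent.Lib.MP_c7af3c_ag.METC.H75.Rigid
import Pool.Agent.Lib.MP_c7af3c_ag.METC.H75.Chain
import Pool.Agent.Lib.MP_c7af3c_ag.METC.H75.Thm1
import Pool.Agent.Lib.MP_c7af3c_ag.MET.All

/-! Assembly of project METC (MP_c7af3c_ag): the transfer theorems with commuting derivations,
without hypotheses. -/

namespace Pool.Agent.MetC

open Pool.Agent.Gen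

theorem rigidAll : RigidS :=
  rigid Pool.Agent.Met.prodAll Pool.Agent.Met.placeAll (H51.algc Pool.Agent.Met.placeAll)
    H51.derz H81.seid H96.res H83.rigff restr

theorem chainAll : ChainS := chain rigidAll H12.ldt

theorem heightAll : HeightS :=
  height Pool.Agent.Met.prodAll Pool.Agent.Met.placeAll H59.derb H83.dir

theorem thm1All : Thm1S :=
  thm1 H36.deriv H83.dir heightAll (H91.coef (H51.Coord.coord Pool.Agent.Met.placeAll) H91.degi)
    ultra chainAll

theorem thm2All : Thm2S := thm2 thm1All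

theorem thmlAll : ThmlS := thml thm2All

end Pool.Agent.MetC
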